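import Pool.Agent.Lib.MP_ba0fa5_ag.AA.IfaceA

/-! MP_ba0fa5_ag, Theorem A: modules CLS and LINKA. -/

namespace Pool.Agent.Lib.MP_ba0fa5_ag.AA.H1

open scoped Classical
open Finset

theorem cls_step (l N₀ : ℕ) (hl : l.Prime) (hN : Even N₀) :
    ∃ r : ℕ, r.Coprime l ∧ (N₀ + r).Coprime l := by
  by_cases h2 : l = 2
  · subst h2
    refine ⟨1, by norm_num, ?_⟩
    rw [Nat.coprime_comm, Nat.coprime_two_left]
    exact hN.add_one
  · have hl3 : 3 ≤ l := by have := hl.two_le; omega
    by_cases h : l ∣ N₀ + 1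
    · refine ⟨2, ?_, ?_⟩
      · rw [Nat.coprime_comm, Nat.Prime.coprime_iff_not_dvd hl]
        intro h'
        have := Nat.le_of_dvd (by norm_num) h'
        omega
      · rw [Nat.coprime_comm, Nat.Prime.coprime_iff_not_dvd hl]
        intro h'
        have h1 : l ∣ 1 := by
          have := (Nat.dvd_sub h' h)
          rwa [show N₀ + 2 - (N₀ + 1) = 1 by omega] at this
        have := Nat.le_of_dvd (by norm_num) h1
        omega
    · refine ⟨1, by simp, ?_⟩
      rw [Nat.coprime_comm, Nat.Prime.coprime_iff_not_dvd hl]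
      exact h

theorem primorial_step (W : ℕ) : primorial (W + 1) =
    if (W + 1).Prime then (W + 1) * primorial W else primorial W := by
  unfold primorial
  rw [Finset.range_add_one (n := W + 1), Finset.filter_insert]
  split_ifs with h
  · rw [Finset.prod_insert (by simp)]
  · rfl

theorem cop_of_modEq (a b n : ℕ) (h : a ≡ b [MOD n]) (hb : b.Coprime n) : a.Coprime n := by
  unfold Nat.Coprime at *
  rw [h.gcd_eq]; exact hb

theorem cls : ClsStmt := by
  intro W N₀ hN
  induction W with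
  | zero => 
    have h0 : primorial 0 = 1 := by decide
    rw [h0]
    exact ⟨1, Nat.coprime_one_right _, Nat.coprime_one_right _⟩
  | succ W ih =>
    obtain ⟨c, hc1, hc2⟩ := ih
    rw [primorial_step]
    split_ifs with hp
    · obtain ⟨r, hr1, hr2⟩ := cls_step (W + 1) N₀ hp hN
      have hcop : (W + 1).Coprime (primorial W) := by
        rw [Nat.Prime.coprime_iff_not_dvd hp]
        intro h
        have := (Prime.dvd_finsetProd_iff (hp.prime) (fun p => p)).1 h
        obtain ⟨p, hp1, hp2⟩ := this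
        rw [Finset.mem_filter, Finset.mem_range] at hp1
        have := (Nat.prime_dvd_prime_iff_eq hp hp1.2).1 hp2
        omega
      obtain ⟨k, hk1, hk2⟩ := Nat.chineseRemainder hcop r c
      refine ⟨k, ?_, ?_⟩
      · exact Nat.Coprime.mul_right (cop_of_modEq _ _ _ hk1 hr1) (cop_of_modEq _ _ _ hk2 hc1)
      · exact Nat.Coprime.mul_right (cop_of_modEq _ _ _ (Nat.ModEq.add_left N₀ hk1) hr2)
          (cop_of_modEq _ _ _ (Nat.ModEq.add_left N₀ hk2) hc2)
    · exact ⟨c, hc1, hc2⟩

theorem lift_pow (l A e : ℕ) (hl : Odd l) (h : l ∣ A + 1) : l ^ (e + 1) ∣ A ^ l ^ e + 1 := by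
  have h1 : (l : ℤ) ∣ (A : ℤ) - (-1) := by
    rw [sub_neg_eq_add]
    exact_mod_cast h
  have h2 := dvd_sub_pow_of_dvd_sub h1 e
  rw [(hl.pow (n := e)).neg_one_pow, sub_neg_eq_add] at h2
  exact_mod_cast h2

theorem dvd_odd_pow (n p i j : ℕ) (hj : Odd j) (h : n ∣ p ^ i + 1) (hd : i ∣ j) :
    n ∣ p ^ j + 1 := by
  obtain ⟨k, rfl⟩ := hd
  have hk : Odd k := Nat.Odd.of_mul_right hj
  refine h.trans ?_
  rw [pow_mul]
  have := Odd.nat_add_dvd_pow_add_pow (p ^ i) 1 hk
  rwa [one_pow] at this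

theorem odd_oo (l : ℕ) (hl : 2 ≤ l) : Odd (oo l) := by
  unfold oo
  have h0 : l - 1 ≠ 0 := by omega
  rw [← Nat.not_even_iff_odd, even_iff_two_dvd]
  intro h
  have := pow_succ_padicValNat_not_dvd (p := 2) h0
  apply this
  obtain ⟨k, hk⟩ := h
  have h1 : 2 ^ padicValNat 2 (l - 1) ∣ l - 1 := pow_padicValNat_dvd
  refine ⟨k, ?_⟩
  rw [pow_succ, mul_assoc, ← hk]
  exact (Nat.mul_div_cancel' h1).symm

theorem linka : LinkaStmt := by
  intro p a Y n hp hpa hn hY hG
  have hn0 : n ≠ 0 := by rintro rfl; exact absurd hn (by decide)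
  set i : ℕ := ∏ l ∈ n.primeFactors, oo l * l ^ (n.factorization l - 1) with hi
  have hodd : ∀ l ∈ n.primeFactors, Odd l := by
    intro l hl
    exact hn.of_dvd_nat (Nat.dvd_of_mem_primeFactors hl)
  have hiodd : Odd i := by
    rw [hi]
    refine Finset.prod_induction _ (fun k => Odd k) (fun a b ha hb => ha.mul hb) odd_one ?_
    intro l hl
    exact (odd_oo l (Nat.prime_of_mem_primeFactors hl).two_le).mul ((hodd l hl).pow)
  refine ⟨i, hiodd.pos, ?_⟩
  have key : ∀ l ∈ n.primeFactors, l ^ n.factorization l ∣ p ^ i + 1 := by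
    intro l hl
    have hlp := Nat.prime_of_mem_primeFactors hl
    have hld := Nat.dvd_of_mem_primeFactors hl
    have h3 : 3 ≤ l := by
      have := hlp.two_le
      have h2 := hodd l hl
      rcases Nat.lt_or_ge l 3 with h | h
      · have : l = 2 := by omega
        rw [this] at h2
        exact absurd h2 (by decide)
      · exact h
    have hlM : l ∣ MM Y := by
      unfold MM
      exact Finset.dvd_prod_of_mem (fun l => l) (Finset.mem_filter.2
        ⟨Finset.mem_Icc.2 ⟨h3, hY l hlp hld⟩, hlp⟩)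
    have hpl : p ≡ a [MOD l] := hpa.of_dvd hlM
    have h1 : l ∣ p ^ oo l + 1 := by
      have e1 : p ^ oo l + 1 ≡ a ^ oo l + 1 [MOD l] := (hpl.pow _).add_right _
      exact (Nat.modEq_zero_iff_dvd).1 (e1.trans ((Nat.modEq_zero_iff_dvd).2 (hG l hlp hld)))
    have hf : 1 ≤ n.factorization l := (hlp.dvd_iff_one_le_factorization hn0).1 hld
    have h2 := lift_pow l (p ^ oo l) (n.factorization l - 1) (hodd l hl) h1
    rw [Nat.sub_add_cancel hf, ← pow_mul] at h2
    exact dvd_odd_pow _ p _ i hiodd h2 (Finset.dvd_prod_of_mem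
      (fun l => oo l * l ^ (n.factorization l - 1)) hl)
  conv_lhs => rw [← Nat.prod_factorization_pow_eq_self hn0]
  rw [Finsupp.prod, Nat.support_factorization]
  refine Finset.prod_dvd_of_isRelPrime ?_ key
  intro l hl l' hl' hne
  rw [Finset.mem_coe] at hl hl'
  exact (Nat.coprime_iff_isRelPrime.1 (Nat.coprime_pow_primes _ _
    (Nat.prime_of_mem_primeFactors hl) (Nat.prime_of_mem_primeFactors hl') hne))

end Pool.Agent.Lib.MP_ba0fa5_ag.AA.H1
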