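import Pool.Agent.Lib.MP_ba0fa5_ag.AA.IfaceA

/-! MP_ba0fa5_ag, Theorem A: modules NTMAIN, LOGD, FINALA. -/

namespace Pool.Agent.Lib.MP_ba0fa5_ag.AA.H1

open scoped Classical
open Finset

theorem card_NN_le (W X r : ℕ) :
    ((NN W X r).card : ℝ) ≤ (X : ℝ) / (primorial W : ℝ) + 1 := by
  have hQ : 0 < primorial W := primorial_pos W
  have hQ' : (0 : ℚ) < primorial W := by exact_mod_cast hQ
  have h1 : NN W X r = (Ioc 0 X).filter (fun N => N ≡ r [MOD primorial W]) := rfl
  have h2 := Nat.Ioc_filter_modEq_card 0 X hQ r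
  rw [← h1] at h2
  have h3 : (((NN W X r).card : ℤ) : ℚ) ≤ (X : ℚ) / (primorial W : ℚ) + 1 := by
    rw [h2]
    have a1 := Int.floor_le ((((X : ℕ) : ℚ) - (r : ℕ)) / (primorial W : ℕ))
    have a2 := Int.lt_floor_add_one ((((0 : ℕ) : ℚ) - (r : ℕ)) / (primorial W : ℕ))
    push_cast
    refine max_le ?_ (by positivity)
    push_cast at a1 a2
    have e1 : ((X : ℚ) - r) / (primorial W : ℚ) = (X : ℚ) / (primorial W : ℚ) - r / (primorial W : ℚ) :=
      sub_div _ _ _
    have e2 : ((0 : ℚ) - r) / (primorial W : ℚ) = - (r / (primorial W : ℚ)) := by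
      rw [zero_sub, neg_div]
    rw [e1] at a1 ⊢
    rw [e2] at a2 ⊢
    linarith
  have h4 : ((((NN W X r).card : ℤ) : ℚ) : ℝ) ≤ (((X : ℚ) / (primorial W : ℚ) + 1 : ℚ) : ℝ) := by
    exact_mod_cast h3
  push_cast at h4
  exact h4

theorem two_dvd_primorial (W : ℕ) (hW : 3 ≤ W) : 2 ∣ primorial W := by
  unfold primorial
  exact Finset.dvd_prod_of_mem (fun l => l) (Finset.mem_filter.2
    ⟨Finset.mem_range.2 (by omega), Nat.prime_two⟩)

theorem ntmain (hC : CoreStmt) (hc : ClsStmt) : NtmainStmt := by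
  intro η hη
  obtain ⟨W, hW, X₀, hX⟩ := hC (η / 2) (by linarith)
  have hQ : 0 < primorial W := primorial_pos W
  have hQr : (0 : ℝ) < primorial W := by exact_mod_cast hQ
  refine ⟨max X₀ ⌈2 * (primorial W : ℝ) / η⌉₊, ?_⟩
  intro X hXX
  have hX0 : X₀ ≤ X := (le_max_left _ _).trans hXX
  have hX1 : (primorial W : ℝ) ≤ η / 2 * X := by
    have h1 : (2 * (primorial W : ℝ) / η) ≤ X := by
      refine (Nat.le_ceil _).trans ?_
      exact_mod_cast (le_max_right _ _).trans hXX
    rw [div_le_iff₀ hη] at h1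
    linarith
  set S := Om (2 * X) with hS
  set T : Finset ℕ := (range (primorial W)).filter (fun r => Even r) with hT
  have hsub : (Icc 1 X ×ˢ S).filter (fun s => Even s.1 ∧ ¬ RepA (2 * X) s.2 s.1) ⊆
      T.biUnion (fun r => (NN W X r ×ˢ S).filter (fun s => ¬ RepA (2 * X) s.2 s.1)) := by
    rintro ⟨N, a⟩ h
    rw [mem_filter, mem_product] at h
    obtain ⟨⟨h1, h2⟩, h3, h4⟩ := h
    rw [mem_biUnion]
    refine ⟨N % primorial W, ?_, ?_⟩
    · rw [hT, mem_filter, mem_range]
      refine ⟨Nat.mod_lt _ hQ, ?_⟩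
      dsimp only at h3
      rw [even_iff_two_dvd] at h3 ⊢
      exact (Nat.dvd_mod_iff (two_dvd_primorial W hW)).2 h3
    · rw [mem_filter, mem_product]
      refine ⟨⟨?_, h2⟩, h4⟩
      unfold NN
      rw [mem_filter]
      exact ⟨h1, (Nat.mod_modEq N (primorial W)).symm⟩
  have hcard := (card_le_card hsub).trans card_biUnion_le
  have hone : ∀ r ∈ T, (((NN W X r ×ˢ S).filter (fun s => ¬ RepA (2 * X) s.2 s.1)).card : ℝ) ≤
      (1 + η / 2 * ((X : ℝ) / primorial W)) * S.card := by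
    intro r hr
    rw [hT, mem_filter] at hr
    obtain ⟨c, hc1, hc2⟩ := hc W r hr.2
    have h1 := hX X r c hX0 hc1 hc2
    have h2 := card_filter_add_card_filter_not (s := NN W X r ×ˢ S)
      (fun s => RepA (2 * X) s.2 s.1)
    have h3 : (((NN W X r ×ˢ S).filter (fun s => RepA (2 * X) s.2 s.1)).card : ℝ) +
        (((NN W X r ×ˢ S).filter (fun s => ¬ RepA (2 * X) s.2 s.1)).card : ℝ) =
        ((NN W X r).card : ℝ) * S.card := by
      rw [← Nat.cast_add, h2, card_product, Nat.cast_mul]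
    have h4 := card_NN_le W X r
    have h5 : ((NN W X r).card : ℝ) * S.card ≤ ((X : ℝ) / primorial W + 1) * S.card :=
      mul_le_mul_of_nonneg_right h4 (Nat.cast_nonneg _)
    nlinarith
  have hTc : (T.card : ℝ) ≤ primorial W := by
    have : T.card ≤ (range (primorial W)).card := card_filter_le _ _
    rw [card_range] at this
    exact_mod_cast this
  calc (((Icc 1 X ×ˢ S).filter (fun s => Even s.1 ∧ ¬ RepA (2 * X) s.2 s.1)).card : ℝ)
      ≤ ∑ r ∈ T, (((NN W X r ×ˢ S).filter (fun s => ¬ RepA (2 * X) s.2 s.1)).card : ℝ) := by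
        exact_mod_cast hcard
    _ ≤ ∑ r ∈ T, (1 + η / 2 * ((X : ℝ) / primorial W)) * S.card := sum_le_sum hone
    _ = T.card * ((1 + η / 2 * ((X : ℝ) / primorial W)) * S.card) := by
        rw [sum_const, nsmul_eq_mul]
    _ ≤ primorial W * ((1 + η / 2 * ((X : ℝ) / primorial W)) * S.card) := by
        refine mul_le_mul_of_nonneg_right hTc ?_
        positivity
    _ = (primorial W + η / 2 * X) * S.card := by
        field_simp
    _ ≤ η * X * S.card := by
        refine mul_le_mul_of_nonneg_right ?_ (Nat.cast_nonneg _)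
        linarith

theorem logd (hM : MertapStmt) : LogdStmt := by
  intro ε P hP
  obtain ⟨M, hM1, hcard⟩ := hP
  obtain ⟨C, hC⟩ := hM M hM1
  set T := (range M).filter (fun a => a.Coprime M ∧ ∀ p : ℕ, p.Prime → p ≡ a [MOD M] → P p) with hT
  refine ⟨T.card * C, ?_⟩
  intro y hy
  have hphi : (0 : ℝ) < M.totient := by exact_mod_cast Nat.totient_pos.2 hM1
  have hlog : 0 ≤ Real.log y := Real.log_nonneg (by exact_mod_cast hy)
  have hsub : T.biUnion (fun a => (Icc 1 y).filter (fun l => l.Prime ∧ l ≡ a [MOD M])) ⊆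
      (Icc 1 y).filter (fun p => p.Prime ∧ P p) := by
    intro l hl
    rw [mem_biUnion] at hl
    obtain ⟨a, ha, hl⟩ := hl
    rw [hT, mem_filter] at ha
    rw [mem_filter] at hl ⊢
    exact ⟨hl.1, hl.2.1, ha.2.2 l hl.2.1 hl.2.2⟩
  have h1 : ∑ a ∈ T, ∑ l ∈ (Icc 1 y).filter (fun l => l.Prime ∧ l ≡ a [MOD M]), Real.log l / l ≤
      ∑ p ∈ (Icc 1 y).filter (fun p => p.Prime ∧ P p), Real.log p / p := by
    rw [← sum_biUnion]
    · refine sum_le_sum_of_subset_of_nonneg hsub ?_
      intro l hl _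
      rw [mem_filter, mem_Icc] at hl
      have : 0 ≤ Real.log l := Real.log_nonneg (by exact_mod_cast hl.1.1)
      positivity
    · intro a ha b hb hab
      rw [mem_coe, hT, mem_filter, mem_range] at ha hb
      refine disjoint_left.2 ?_
      intro l hl hl'
      rw [mem_filter] at hl hl'
      apply hab
      have : a ≡ b [MOD M] := hl.2.2.symm.trans hl'.2.2
      exact Nat.ModEq.eq_of_lt_of_lt this ha.1 hb.1
  have h2 : ∑ a ∈ T, (Real.log y / M.totient - C) ≤
      ∑ a ∈ T, ∑ l ∈ (Icc 1 y).filter (fun l => l.Prime ∧ l ≡ a [MOD M]), Real.log l / l := by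
    refine sum_le_sum ?_
    intro a ha
    rw [hT, mem_filter] at ha
    have := abs_le.1 (hC a y ha.2.1 hy)
    linarith [this.1]
  rw [sum_const, nsmul_eq_mul] at h2
  have h3 : (1 - ε) * Real.log y ≤ T.card * (Real.log y / M.totient) := by
    rw [mul_div_assoc', le_div_iff₀ hphi]
    have := mul_le_mul_of_nonneg_right hcard hlog
    nlinarith
  linarith [mul_sub (T.card : ℝ) (Real.log y / M.totient) C]

theorem MM_pos (Y : ℕ) : 0 < MM Y := by
  unfold MM
  refine prod_pos ?_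
  intro l hl
  exact (mem_filter.1 hl).2.pos

theorem card_Om (Y : ℕ) : (Om Y).card = (MM Y).totient := by
  unfold Om Nat.totient
  congr 1
  ext a
  rw [mem_filter, mem_filter, Nat.coprime_comm]

theorem most_of_rep (hL : LinkaStmt) (hG : GfinalStmt) (ε : ℝ) (X g : ℕ) (hg : 2 ≤ g)
    (h : (((Om (4 * X)).filter (fun a => ¬ RepA (4 * X) a (2 * g - 2))).card : ℝ) ≤
      ε * (Om (4 * X)).card) : MostClasses ε (fun p => SupersingularGenus p g) := by
  refine ⟨MM (4 * X), MM_pos _, ?_⟩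
  have hsub : (Om (4 * X)).filter (fun a => RepA (4 * X) a (2 * g - 2)) ⊆
      (range (MM (4 * X))).filter (fun a => a.Coprime (MM (4 * X)) ∧
        ∀ p : ℕ, p.Prime → p ≡ a [MOD (MM (4 * X))] → SupersingularGenus p g) := by
    intro a ha
    rw [mem_filter] at ha
    obtain ⟨ha, x, u, v, m, hxu, hxv, huv, hdvd, hodd, hle, hGd, heq⟩ := ha
    unfold Om at ha
    rw [mem_filter] at ha ⊢
    refine ⟨ha.1, ha.2, ?_⟩
    intro p hp hpa
    have hm0 : m ≠ 0 := by rintro rfl; exact absurd hodd (by decide)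
    obtain ⟨i, hi, hmi⟩ := hL p a (4 * X) m hp hpa hodd (fun l _ hl =>
      (Nat.le_of_dvd (Nat.pos_of_ne_zero hm0) hl).trans hle) hGd
    exact hG p i m x u v g hp hi hodd hmi hxu hxv huv hdvd (by omega)
  have hc := card_le_card hsub
  have h2 := card_filter_add_card_filter_not (s := Om (4 * X))
    (fun a => RepA (4 * X) a (2 * g - 2))
  have h3 : (((Om (4 * X)).filter (fun a => RepA (4 * X) a (2 * g - 2))).card : ℝ) +
      (((Om (4 * X)).filter (fun a => ¬ RepA (4 * X) a (2 * g - 2))).card : ℝ) =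
      (Om (4 * X)).card := by
    exact_mod_cast h2
  have h4 : (((Om (4 * X)).filter (fun a => RepA (4 * X) a (2 * g - 2))).card : ℝ) ≤
      (((range (MM (4 * X))).filter (fun a => a.Coprime (MM (4 * X)) ∧
        ∀ p : ℕ, p.Prime → p ≡ a [MOD (MM (4 * X))] → SupersingularGenus p g)).card : ℝ) := by
    exact_mod_cast hc
  rw [← card_Om]
  linarith

theorem finala (hN : NtmainStmt) (hL : LinkaStmt) (hD : LogdStmt) (hG : GfinalStmt) :
    FinalaStmt := by
  intro ε δ hε hδ
  obtain ⟨X₁, hX₁⟩ := hN (ε * δ / 8) (by positivity)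
  refine ⟨max X₁ ⌈4 / δ⌉₊, ?_⟩
  intro X hX
  have hX1 : X₁ ≤ 2 * X := ((le_max_left _ _).trans hX).trans (by omega)
  have hX2 : 4 ≤ δ * X := by
    have h1 : 4 / δ ≤ X := by
      refine (Nat.le_ceil _).trans ?_
      exact_mod_cast (le_max_right _ _).trans hX
    rw [div_le_iff₀ hδ] at h1
    linarith
  have hmain := hX₁ (2 * X) hX1
  rw [show 2 * (2 * X) = 4 * X by ring] at hmain
  set S := Om (4 * X) with hS
  have hSpos : (0 : ℝ) < S.card := by
    rw [hS, card_Om]
    exact_mod_cast Nat.totient_pos.2 (MM_pos _)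
  set F : Finset ℕ := (Icc 2 X).filter (fun g => ε * S.card <
    ((S.filter (fun a => ¬ RepA (4 * X) a (2 * g - 2))).card : ℝ)) with hF
  -- Markov
  have h1 : (∑ g ∈ F, (S.filter (fun a => ¬ RepA (4 * X) a (2 * g - 2))).card) ≤
      ((Icc 1 (2 * X) ×ˢ S).filter (fun s => Even s.1 ∧ ¬ RepA (4 * X) s.2 s.1)).card := by
    rw [← card_sigma]
    refine card_le_card_of_injOn (fun s => (2 * s.1 - 2, s.2)) ?_ ?_
    · rintro ⟨g, a⟩ h
      rw [mem_coe, mem_sigma] at h
      obtain ⟨h1, h2⟩ := h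
      rw [hF, mem_filter, mem_Icc] at h1
      rw [mem_filter] at h2
      dsimp only at h1 h2
      rw [mem_coe, mem_filter, mem_product, mem_Icc]
      refine ⟨⟨⟨?_, ?_⟩, h2.1⟩, ?_, h2.2⟩
      · dsimp only; omega
      · dsimp only; omega
      · dsimp only
        exact ⟨g - 1, by omega⟩
    · rintro ⟨g, a⟩ h ⟨g', a'⟩ h' heq
      rw [mem_coe, mem_sigma] at h h'
      have h1 := h.1
      have h1' := h'.1
      rw [hF, mem_filter, mem_Icc] at h1 h1'
      dsimp only at h1 h1' heq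
      rw [Prod.mk.injEq] at heq
      have : g = g' := by omega
      subst this
      have h2 := heq.2
      subst h2
      rfl
  have h2 : (F.card : ℝ) * (ε * S.card) ≤
      ∑ g ∈ F, ((S.filter (fun a => ¬ RepA (4 * X) a (2 * g - 2))).card : ℝ) := by
    rw [← nsmul_eq_mul]
    refine card_nsmul_le_sum _ _ _ ?_
    intro g hg
    rw [hF, mem_filter] at hg
    exact hg.2.le
  have h3 : (F.card : ℝ) * (ε * S.card) ≤ ε * δ / 8 * ((2 * X : ℕ) : ℝ) * S.card := by
    refine h2.trans (le_trans ?_ hmain)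
    exact_mod_cast h1
  have h4 : (F.card : ℝ) ≤ δ / 4 * X := by
    have h5 : (F.card : ℝ) * (ε * S.card) ≤ (δ / 4 * X) * (ε * S.card) := by
      refine h3.trans (le_of_eq ?_)
      push_cast
      ring
    exact le_of_mul_le_mul_right h5 (mul_pos hε hSpos)
  have hsub : (Icc 2 X) \ F ⊆ (Icc 1 X).filter (fun g =>
      MostClasses ε (fun p => SupersingularGenus p g) ∧
      MostPrimes ε (fun p => SupersingularGenus p g)) := by
    intro g hg
    rw [mem_sdiff] at hg
    obtain ⟨hg1, hg2⟩ := hg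
    have hg3 := mem_Icc.1 hg1
    have h5 : ((S.filter (fun a => ¬ RepA (4 * X) a (2 * g - 2))).card : ℝ) ≤ ε * S.card := by
      by_contra hcon
      exact hg2 (by rw [hF, mem_filter]; exact ⟨hg1, not_le.1 hcon⟩)
    have h6 := most_of_rep hL hG ε X g hg3.1 h5
    rw [mem_filter, mem_Icc]
    exact ⟨⟨by omega, hg3.2⟩, h6, hD ε _ h6⟩
  have h7 := card_le_card hsub
  have h8 : (Icc 2 X).card ≤ ((Icc 2 X) \ F).card + F.card := by
    have := le_card_sdiff F (Icc 2 X)
    omega
  rw [Nat.card_Icc] at h8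
  have h9 : X ≤ ((Icc 1 X).filter (fun g =>
      MostClasses ε (fun p => SupersingularGenus p g) ∧
      MostPrimes ε (fun p => SupersingularGenus p g))).card + F.card + 1 := by omega
  have h10 : (X : ℝ) ≤ (((Icc 1 X).filter (fun g =>
      MostClasses ε (fun p => SupersingularGenus p g) ∧
      MostPrimes ε (fun p => SupersingularGenus p g))).card : ℝ) + F.card + 1 := by
    exact_mod_cast h9
  have h11 : δ / 4 * X = δ * X / 4 := by ring
  have h12 : (1 - δ) * X = X - δ * X := by ring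
  rw [h12]
  rw [h11] at h4
  linarith

end Pool.Agent.Lib.MP_ba0fa5_ag.AA.H1
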